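import Mathlib
import Pool.Agent.LeoC.CountStmts
import Pool.Agent.Helper13_LeoK.LOW

/-!
# LEOC, module MSQ: the size of the family (port of LEOK MSQ by helper13)
-/

set_option autoImplicit false

open NumberField NumberField.InfinitePlace NumberField.mixedEmbedding IsDedekindDomain Module
  MeasureTheory Filter Topology

namespace Pool.Agent.LeoC.H73

theorem msq (hMRC : Pool.Agent.LeoK.MrcStmt) (hMSA : Pool.Agent.LeoC.MsaStmt)
    (hMST : Pool.Agent.LeoC.MstStmt) (hPIK : Pool.Agent.LeoK.PikStmt) :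
    Pool.Agent.LeoC.MsqStmt := by
  classical
  intro k _ _ Φ Ng
  obtain ⟨A, hA, hT⟩ := hMST k Φ
  obtain ⟨hsum, -, hDk, h6fin, hQle, -⟩ := hPIK k
  have hfin : ∀ Z : ℝ, (Mset Φ Ng Z).Finite := by
    intro Z
    refine (hT (max Z 1) (by positivity)).1.subset ?_
    rintro m ⟨-, h1, h2, -⟩
    exact ⟨h1, h2.trans (le_max_left _ _)⟩
  refine ⟨hfin, ⟨A, hA, fun Z hZ => ?_⟩, fun ε hε => ?_⟩
  · refine le_trans ?_ (hT Z hZ).2.1
    have : (Mset Φ Ng Z).ncard ≤ {m : 𝓞 k | av (mixedEmbedding k (m : k)) ∈ Φ.F ∧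
        nr (av (mixedEmbedding k (m : k))) ≤ Z}.ncard := by
      refine Set.ncard_le_ncard ?_ (hT Z hZ).1
      rintro m ⟨-, h1, h2, -⟩
      exact ⟨h1, h2⟩
    exact_mod_cast this
  · obtain ⟨Q0, hQ0⟩ := (summable_iff_vanishing_norm.1 hsum) (ε / 2 / A) (by positivity)
    set Q : Finset (HeightOneSpectrum (𝓞 k)) := Q0 ∪ h6fin.toFinset with hQdef
    have hQ : ∀ t : Finset (HeightOneSpectrum (𝓞 k)), Disjoint t Q →
        ‖∑ p ∈ t, 1 / Pool.Agent.LeoK.np p ^ 2‖ < ε / 2 / A := by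
      intro t ht
      exact hQ0 t (ht.mono_right (by rw [hQdef]; exact Finset.subset_union_left))
    have hmem6 : ∀ p : HeightOneSpectrum (𝓞 k), (6 : 𝓞 k) ∈ p.asIdeal → p ∈ Q := by
      intro p hp
      rw [hQdef, Finset.mem_union]
      right
      exact h6fin.mem_toFinset.2 hp
    have hmem2 : ∀ p : HeightOneSpectrum (𝓞 k), (2 : 𝓞 k) ∈ p.asIdeal → p ∈ Q := by
      intro p hp
      apply hmem6
      have : (6 : 𝓞 k) = 3 * 2 := by norm_num
      rw [this]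
      exact Ideal.mul_mem_left _ _ hp
    have hmem3 : ∀ p : HeightOneSpectrum (𝓞 k), (3 : 𝓞 k) ∈ p.asIdeal → p ∈ Q := by
      intro p hp
      apply hmem6
      have : (6 : 𝓞 k) = 2 * 3 := by norm_num
      rw [this]
      exact Ideal.mul_mem_left _ _ hp
    obtain ⟨N, S, hN, hS, hScard⟩ := hMRC k Q hmem2
    obtain ⟨Z₀, hZ₀⟩ := hMSA k Φ Ng N hN S (ε / 2) (by positivity)
    refine ⟨max Z₀ 1, fun Z hZ => ?_⟩
    have hZ1 : 1 ≤ Z := (le_max_right _ _).trans hZ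
    have hZpos : 0 < Z := by linarith
    have hlow := hZ₀ Z ((le_max_left _ _).trans hZ)
    set G : Set (𝓞 k) := {m : 𝓞 k | Ideal.Quotient.mk N m ∈ S ∧
        Sgn Ng (mixedEmbedding k (m : k)) ∧ av (mixedEmbedding k (m : k)) ∈ Φ.F ∧
        nr (av (mixedEmbedding k (m : k))) ≤ Z} with hGdef
    have hGfin : G.Finite := by
      refine (hT Z hZpos).1.subset ?_
      rintro m ⟨-, -, h1, h2⟩
      exact ⟨h1, h2⟩
    set W : Set (𝓞 k) := {m | m ∈ G ∧ ¬ ∀ p : HeightOneSpectrum (𝓞 k),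
      Pool.Agent.LeoK.LocOK p m} with hWdef
    have hWfin : W.Finite := hGfin.subset (fun p hp => hp.1)
    have hWc : (W.ncard : ℝ) ≤ A * Z * (ε / 2 / A) := by
      refine Pool.Agent.LeoK.H13.ncard_cover W hWfin (fun p : HeightOneSpectrum (𝓞 k) =>
        {m : 𝓞 k | m ∈ p.asIdeal ^ 2 ∧ av (mixedEmbedding k (m : k)) ∈ Φ.F ∧
          nr (av (mixedEmbedding k (m : k))) ≤ Z}) ?_
        (fun p => 1 / Pool.Agent.LeoK.np p ^ 2) (A * Z) _ (by positivity) Q hQ ?_ ?_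
      · intro p
        refine (hT Z hZpos).1.subset ?_
        rintro m ⟨-, h1, h2⟩
        exact ⟨h1, h2⟩
      · intro p
        have := (hT Z hZpos).2.2 p
        calc _ ≤ A * Z / Pool.Agent.LeoK.np p ^ 2 := this
          _ = A * Z * (1 / Pool.Agent.LeoK.np p ^ 2) := by ring
      · rintro m ⟨⟨h1, h0, h2, h3⟩, hnl⟩
        push Not at hnl
        obtain ⟨p, hp⟩ := hnl
        have hpQ : p ∉ Q := fun hpQ => hp ((hS m h1).2 p hpQ)
        refine ⟨p, hpQ, ?_, h2, h3⟩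
        by_contra hnot
        exact hp ⟨hnot, fun h => absurd (hmem2 p h) hpQ, fun h => absurd (hmem3 p h) hpQ⟩
    have hsub : G \ W ⊆ Mset Φ Ng Z := by
      rintro m ⟨⟨h1, h0, h2, h3⟩, hmW⟩
      refine ⟨h0, h2, h3, (hS m h1).1, ?_⟩
      by_contra hcon
      exact hmW ⟨⟨h1, h0, h2, h3⟩, hcon⟩
    have hcard : (G.ncard : ℝ) ≤ ((Mset Φ Ng Z).ncard : ℝ) + (W.ncard : ℝ) := by
      have h1 : G.ncard ≤ (G \ W).ncard + W.ncard := Set.ncard_le_ncard_sdiff_add_ncard G W hWfin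
      have h2 : (G \ W).ncard ≤ (Mset Φ Ng Z).ncard := Set.ncard_le_ncard hsub (hfin Z)
      have h3 : G.ncard ≤ (Mset Φ Ng Z).ncard + W.ncard := by omega
      exact_mod_cast h3
    have hNpos : (0 : ℝ) < (Ideal.absNorm N : ℝ) := by
      have : Ideal.absNorm N ≠ 0 := fun h => hN (Ideal.absNorm_eq_zero_iff.1 h)
      exact_mod_cast Nat.pos_of_ne_zero this
    have hprod : Pool.Agent.LeoK.Dk k ≤ ∏ p ∈ Q, Pool.Agent.LeoK.dm p := (hQle Q).2
    have hw : 0 ≤ Φ.w := ENNReal.toReal_nonneg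
    have hD : 0 ≤ cov k := ENNReal.toReal_nonneg
    obtain ⟨V, hV⟩ : ∃ V : ℝ, (2 * Real.pi) ^ nrComplexPlaces k * Φ.w = V := ⟨_, rfl⟩
    have hV0 : 0 ≤ V := by
      rw [← hV]
      have := Real.pi_pos
      positivity
    rw [hV] at hlow ⊢
    have h1 : (∏ p ∈ Q, Pool.Agent.LeoK.dm p) / 2 ^ finrank ℚ k ≤
        (S.ncard : ℝ) / (Ideal.absNorm N : ℝ) := by
      rw [le_div_iff₀ hNpos]
      exact hScard
    have h2 : Pool.Agent.LeoK.Dk k * V / (cov k * 2 ^ finrank ℚ k) ≤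
        (S.ncard : ℝ) / (Ideal.absNorm N : ℝ) * V / cov k := by
      have h3 : Pool.Agent.LeoK.Dk k / 2 ^ finrank ℚ k ≤
          (S.ncard : ℝ) / (Ideal.absNorm N : ℝ) := by
        refine le_trans ?_ h1
        gcongr
      have h4 : Pool.Agent.LeoK.Dk k * V / (cov k * 2 ^ finrank ℚ k) =
          Pool.Agent.LeoK.Dk k / 2 ^ finrank ℚ k * V / cov k := by
        rw [div_mul_eq_mul_div, div_div, mul_comm (cov k)]
      rw [h4]
      gcongr
    have hA1 : A * Z * (ε / 2 / A) = ε / 2 * Z := by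
      field_simp
    rw [hA1] at hWc
    have h5 : (Pool.Agent.LeoK.Dk k * V / (cov k * 2 ^ finrank ℚ k) - ε / 2) * Z ≤
        ((S.ncard : ℝ) / (Ideal.absNorm N : ℝ) * V / cov k - ε / 2) * Z := by
      gcongr
    have h6 : (Pool.Agent.LeoK.Dk k * V / (cov k * 2 ^ finrank ℚ k) - ε) * Z =
        (Pool.Agent.LeoK.Dk k * V / (cov k * 2 ^ finrank ℚ k) - ε / 2) * Z - ε / 2 * Z := by ring
    rw [h6]
    linarith

end Pool.Agent.LeoC.H73
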