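import Mathlib
import Pool.Agent.LeoC.CountStmts

/-!
# Module SMV: a short vector gives a form with small size of the first basis vector (LEOC)
-/

set_option autoImplicit false

open NumberField NumberField.InfinitePlace NumberField.mixedEmbedding IsDedekindDomain Module
open Pool.Agent.LeoK Pool.Agent.LeoG

namespace Pool.Agent.LeoC.H73

/-- value of a place at a natural number -/
theorem place_nat {k : Type} [Field k] (v : InfinitePlace k) (n : ℕ) :
    v ((n : k)) = (n : ℝ) := by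
  rw [← NumberField.InfinitePlace.norm_embedding_eq v, map_natCast, Complex.norm_natCast]

/-- `nr` is multiplicative -/
theorem nr_mul {k : Type} [Field k] [NumberField k] (x y : PS k) :
    nr (fun v => x v * y v) = nr x * nr y := by
  simp only [nr, mul_pow, Finset.prod_mul_distrib]

/-- `nr` is nonnegative -/
theorem nr_nn {k : Type} [Field k] [NumberField k] (x : PS k) (h : ∀ v, 0 ≤ x v) : 0 ≤ nr x :=
  Finset.prod_nonneg fun v _ => pow_nonneg (h v) _

/-- `nr` is positive -/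
theorem nr_ps {k : Type} [Field k] [NumberField k] (x : PS k) (h : ∀ v, 0 < x v) : 0 < nr x :=
  Finset.prod_pos fun v _ => pow_pos (h v) _

/-- SMV. -/
theorem smv (hREP : RepStmt) (hHKA : HkaStmt) (hIDN : IdnStmt) (hEVS : EvsStmt) : SmvStmt := by
  intro k _ _
  obtain ⟨N0, hN0, hrep⟩ := hREP k
  refine ⟨N0, (N0 : ℝ) ^ 2, hN0, by positivity, ?_⟩
  intro g X Y hirr hm hXY
  have hav := (hEVS k).2.2.2.2.2.2.2.1
  have hI : Ideal.span {X, Y} ≠ (⊥ : Ideal (𝓞 k)) := by
    intro h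
    rw [Ideal.span_eq_bot] at h
    rcases hXY with h1 | h1
    · exact h1 (h X (by simp))
    · exact h1 (h Y (by simp))
  obtain ⟨r, α, β, hα, hβ, hN0r, hspan, hn1, -⟩ := hrep _ hI
  -- X' and Y'
  have hX : ∃ X' ∈ r, β * X = α * X' := by
    have h1 : β * X ∈ Ideal.span {α} * r := by
      rw [← hspan]
      exact Ideal.mul_mem_mul (Ideal.mem_span_singleton_self β) (Ideal.subset_span (by simp))
    obtain ⟨X', hX', h2⟩ := Ideal.mem_span_singleton_mul.1 h1
    exact ⟨X', hX', h2.symm⟩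
  have hY : ∃ Y' ∈ r, β * Y = α * Y' := by
    have h1 : β * Y ∈ Ideal.span {α} * r := by
      rw [← hspan]
      exact Ideal.mul_mem_mul (Ideal.mem_span_singleton_self β) (Ideal.subset_span (by simp))
    obtain ⟨Y', hY', h2⟩ := Ideal.mem_span_singleton_mul.1 h1
    exact ⟨Y', hY', h2.symm⟩
  obtain ⟨X', hX'r, hX'⟩ := hX
  obtain ⟨Y', hY'r, hY'⟩ := hY
  have hXY' : X' ≠ 0 ∨ Y' ≠ 0 := by
    rcases hXY with h1 | h1
    · left
      rintro rfl
      rw [mul_zero] at hX'
      exact (mul_ne_zero hβ h1) hX'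
    · right
      rintro rfl
      rw [mul_zero] at hY'
      exact (mul_ne_zero hβ h1) hY'
  -- N0 is a combination of X' and Y'
  have hcomb : ∃ a b : 𝓞 k, a * X' + b * Y' = (N0 : 𝓞 k) := by
    have h1 : α * (N0 : 𝓞 k) ∈ Ideal.span {β} * Ideal.span {X, Y} := by
      rw [hspan]
      exact Ideal.mul_mem_mul (Ideal.mem_span_singleton_self α) hN0r
    obtain ⟨c, hc, h2⟩ := Ideal.mem_span_singleton_mul.1 h1
    obtain ⟨a, b, hab⟩ := Ideal.mem_span_pair.1 hc
    refine ⟨a, b, mul_left_cancel₀ hα ?_⟩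
    rw [← h2, ← hab]
    linear_combination (-a) * hX' + (-b) * hY'
  obtain ⟨a, b, hab⟩ := hcomb
  have hdet : X' * a - (-b) * Y' = (N0 : 𝓞 k) := by
    rw [← hab]
    ring
  have hN0' : (N0 : 𝓞 k) ≠ 0 := by
    exact_mod_cast hN0.ne'
  have hmw : mm (gact g X' (-b) Y' a) = (N0 : 𝓞 k) ^ 6 * mm g := by
    have h1 := ((hIDN (𝓞 k) g).2 X' (-b) Y' a).1
    rw [hdet] at h1
    simp only [mm]
    rw [h1]
    ring
  have hmw0 : mm (gact g X' (-b) Y' a) ≠ 0 := by
    rw [hmw]
    exact mul_ne_zero (pow_ne_zero _ hN0') hm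
  refine ⟨gact g X' (-b) Y' a, hmw, ?_, ?_⟩
  · intro h
    have h0 : gval g X' Y' = 0 := h
    obtain ⟨h1, h2⟩ := hirr X' Y' h0
    rcases hXY' with h3 | h3
    · exact h3 h1
    · exact h3 h2
  · obtain ⟨hg0, -, hgs, hga, -, -⟩ := hHKA k g hm
    obtain ⟨hw0, -, -, -, -, hwz⟩ := hHKA k (gact g X' (-b) Y' a) hmw0
    rw [hwz]
    -- pointwise
    have hpt : ∀ v : InfinitePlace k, (hk (gact g X' (-b) Y' a) 1 0 v * (N0 : ℝ)) *
        (av (mixedEmbedding k (α : k)) v * av (mixedEmbedding k (α : k)) v) =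
        (av (mixedEmbedding k (β : k)) v * av (mixedEmbedding k (β : k)) v) * hk g X Y v := by
      intro v
      have h1 := hga X' (-b) Y' a 1 0 v (by rw [hdet]; exact hN0')
      rw [hdet] at h1
      have h2 : ((N0 : 𝓞 k) : k) = (N0 : k) := by simp
      rw [h2, place_nat] at h1
      have h3 : X' * 1 + -b * 0 = X' := by ring
      have h4 : Y' * 1 + a * 0 = Y' := by ring
      rw [h3, h4] at h1
      have h5 := hgs α X' Y' v
      have h6 := hgs β X Y v
      rw [← hX', ← hY', h6] at h5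
      rw [h1, hav, hav]
      linear_combination -h5
    have hprod : nr (hk (gact g X' (-b) Y' a) 1 0) * nr (fun _ : InfinitePlace k => (N0 : ℝ)) *
        (nr (av (mixedEmbedding k (α : k))) * nr (av (mixedEmbedding k (α : k)))) =
        (nr (av (mixedEmbedding k (β : k))) * nr (av (mixedEmbedding k (β : k)))) *
          nr (hk g X Y) := by
      rw [← nr_mul, ← nr_mul, ← nr_mul, ← nr_mul, ← nr_mul]
      exact congrArg nr (funext hpt)
    have hN1 : 1 ≤ nr (fun _ : InfinitePlace k => (N0 : ℝ)) := by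
      calc (1 : ℝ) = ∏ _v : InfinitePlace k, (1 : ℝ) := by simp
        _ ≤ ∏ v : InfinitePlace k, (N0 : ℝ) ^ v.mult :=
          Finset.prod_le_prod (fun _ _ => zero_le_one) fun v _ =>
            one_le_pow₀ (by exact_mod_cast hN0)
    have hA : 0 < nr (av (mixedEmbedding k (α : k))) := nr_ps _ fun v => by
      rw [hav]
      exact (NumberField.InfinitePlace.pos_iff).2 (by exact_mod_cast hα)
    have hB : 0 ≤ nr (av (mixedEmbedding k (β : k))) := nr_nn _ fun v => by
      rw [hav]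
      exact apply_nonneg _ _
    have hW : 0 ≤ nr (hk (gact g X' (-b) Y' a) 1 0) := nr_nn _ fun v => hw0 1 0 v
    have hH : 0 ≤ nr (hk g X Y) := nr_nn _ fun v => hg0 X Y v
    have hI1 : (1 : ℝ) ≤ (Ideal.absNorm (Ideal.span {X, Y} : Ideal (𝓞 k)) : ℝ) := by
      exact_mod_cast Nat.one_le_iff_ne_zero.2 fun h => hI (Ideal.absNorm_eq_zero_iff.1 h)
    have hBA : nr (av (mixedEmbedding k (β : k))) ≤ N0 * nr (av (mixedEmbedding k (α : k))) := by
      refine le_trans ?_ hn1
      nlinarith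
    set a1 := nr (av (mixedEmbedding k (α : k))) with ha1
    set b1 := nr (av (mixedEmbedding k (β : k))) with hb1
    set w1 := nr (hk (gact g X' (-b) Y' a) 1 0) with hw1
    set h1 := nr (hk g X Y) with hh1
    set n1 := nr (fun _ : InfinitePlace k => (N0 : ℝ)) with hn1'
    have e1 : w1 * (a1 * a1) ≤ w1 * n1 * (a1 * a1) := by
      have : w1 ≤ w1 * n1 := le_mul_of_one_le_right hW hN1
      gcongr
    have e2 : b1 * b1 ≤ (N0 * a1) * (N0 * a1) := mul_self_le_mul_self hB hBA
    have e3 : b1 * b1 * h1 ≤ (N0 * a1) * (N0 * a1) * h1 := by gcongr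
    have e4 : w1 * (a1 * a1) ≤ ((N0 : ℝ) ^ 2 * h1) * (a1 * a1) := by
      calc w1 * (a1 * a1) ≤ w1 * n1 * (a1 * a1) := e1
        _ = b1 * b1 * h1 := hprod
        _ ≤ (N0 * a1) * (N0 * a1) * h1 := e3
        _ = ((N0 : ℝ) ^ 2 * h1) * (a1 * a1) := by ring
    exact le_of_mul_le_mul_right e4 (mul_pos hA hA)

end Pool.Agent.LeoC.H73
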